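import Pool.Agent.R467.DR.Defs

namespace Pool.Agent.R467.DR

open Filter Topology

theorem isReg_rev {V : Type} [Fintype V] {A : V → V → Prop} {r : ℕ} (h : IsReg A r) :
    IsReg (rev A) r := ⟨h.loopless, h.in_deg, h.out_deg⟩

theorem gam_pos (hub1 : UB1) {V : Type} [Fintype V] [Nonempty V] {A : V → V → Prop} {r : ℕ}
    (h : IsReg A r) : 0 < gam A := by
  have h1 := hub1 V A r h
  have h2 : 0 < Fintype.card V := Fintype.card_pos
  rcases Nat.eq_zero_or_pos (gam A) with h0 | h0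
  · rw [h0] at h1; omega
  · exact h0

theorem ratio_le (hub1 : UB1) (hub2 : UB2) {r : ℕ} (hr : 1 ≤ r) :
    ∀ x ∈ ratios r, x ≤ 2 + Real.log (r + 1) := by
  rintro x ⟨V, i1, i2, A, hA, -, rfl⟩
  have hp := gam_pos hub1 hA
  have h1 : (Fintype.card V : ℝ) ≤ (r + 1) * gam A := by exact_mod_cast hub1 V A r hA
  have h2 := hub2 V (rev A) r hr (isReg_rev hA)
  have hp' : (0 : ℝ) < gam A := by exact_mod_cast hp
  rw [div_le_iff₀ hp']
  have hr1 : (0 : ℝ) < (r : ℝ) + 1 := by positivity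
  have h3 : (Fintype.card V : ℝ) / (r + 1) ≤ gam A := by
    rw [div_le_iff₀ hr1]; linarith
  have hlog : 0 ≤ Real.log ((r : ℝ) + 1) := Real.log_nonneg (by linarith [(Nat.cast_nonneg r : (0:ℝ) ≤ r)])
  calc (gam (rev A) : ℝ) ≤ (2 + Real.log (r + 1)) * ((Fintype.card V : ℝ) / (r + 1)) := h2
    _ ≤ (2 + Real.log (r + 1)) * gam A := by
        apply mul_le_mul_of_nonneg_left h3; linarith

theorem fin' (hub1 : UB1) (hub2 : UB2) (hex : EX) : FIN := by
  have hbdd : ∀ r, 1 ≤ r → BddAbove (ratios r) := fun r hr =>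
    ⟨2 + Real.log (r + 1), fun x hx => ratio_le hub1 hub2 hr x hx⟩
  refine ⟨hbdd, ?_⟩
  have hlogtop : Tendsto (fun r : ℕ => Real.log (r : ℝ)) atTop atTop :=
    Real.tendsto_log_atTop.comp tendsto_natCast_atTop_atTop
  rw [Metric.tendsto_nhds]
  intro ε hε
  -- lower side
  have hδ : 0 < min (ε / 2) (1 / 2) := by positivity
  have hδ1 : min (ε / 2) (1 / 2) < (1 : ℝ) := lt_of_le_of_lt (min_le_right _ _) (by norm_num)
  have hlow := hex (min (ε / 2) (1 / 2)) hδ hδ1
  have hbig : ∀ᶠ r : ℕ in atTop, max 1 (3 / (ε / 2)) ≤ Real.log (r : ℝ) :=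
    hlogtop.eventually_ge_atTop _
  filter_upwards [hlow, hbig, eventually_ge_atTop 1] with r hl hb hr
  obtain ⟨x, hx, hxl⟩ := hl
  have hL1 : (1 : ℝ) ≤ Real.log r := le_trans (le_max_left _ _) hb
  have hL2 : 3 / (ε / 2) ≤ Real.log r := le_trans (le_max_right _ _) hb
  have hLpos : (0 : ℝ) < Real.log r := by linarith
  have hge : (1 - min (ε / 2) (1 / 2)) * Real.log r ≤ rho r :=
    le_trans hxl (le_csSup (hbdd r hr) hx)
  have hle : rho r ≤ 2 + Real.log (r + 1) := csSup_le ⟨x, hx⟩ (ratio_le hub1 hub2 hr)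
  have hr0 : (1 : ℝ) ≤ r := by exact_mod_cast hr
  have hlog1 : Real.log ((r : ℝ) + 1) ≤ Real.log r + 1 := by
    have : Real.log ((r : ℝ) + 1) ≤ Real.log (r * Real.exp 1) := by
      apply Real.log_le_log (by linarith)
      have he : (2 : ℝ) ≤ Real.exp 1 := by
        have := Real.add_one_le_exp (1 : ℝ); linarith
      nlinarith
    rw [Real.log_mul (by linarith) (Real.exp_pos 1).ne', Real.log_exp] at this
    exact this
  rw [Real.dist_eq, abs_lt]
  have h3 : 3 ≤ (ε / 2) * Real.log r := by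
    rw [div_le_iff₀ (by positivity)] at hL2; linarith
  constructor
  · have : 1 - min (ε / 2) (1 / 2) ≤ rho r / Real.log r := by
      rw [le_div_iff₀ hLpos]; exact hge
    have hm : min (ε / 2) (1 / 2) ≤ ε / 2 := min_le_left _ _
    linarith
  · have : rho r / Real.log r ≤ 1 + ε / 2 := by
      rw [div_le_iff₀ hLpos]; nlinarith
    linarith

end Pool.Agent.R467.DR
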