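import Pool.Agent.R467.DR.Defs

/-! MP_9a58dc_co, project DR, piece CIRC. -/

set_option autoImplicit false

namespace Pool.Agent.R467.DR
namespace CircAux

/-- the interval `1..i` in `ZMod n` -/
def ivl (n i : ℕ) [NeZero n] (h : i < n) :
    {x : ZMod n // 1 ≤ x.val ∧ x.val ≤ i} ≃ Fin i where
  toFun x := ⟨x.1.val - 1, by have := x.2; omega⟩
  invFun k := ⟨((k.1 + 1 : ℕ) : ZMod n), by
    have hk := k.2
    rw [ZMod.val_cast_of_lt (by omega)]
    omega⟩
  left_inv x := by
    apply Subtype.ext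
    have h1 := x.2
    have e : x.1.val - 1 + 1 = x.1.val := by omega
    show ((x.1.val - 1 + 1 : ℕ) : ZMod n) = x.1
    rw [e, ZMod.natCast_zmod_val]
  right_inv k := by
    have hk := k.2
    apply Fin.ext
    show ((k.1 + 1 : ℕ) : ZMod n).val - 1 = k.1
    rw [ZMod.val_cast_of_lt (by omega)]
    omega

lemma card_ivl (n i : ℕ) [NeZero n] (h : i < n) :
    Nat.card {x : ZMod n // 1 ≤ x.val ∧ x.val ≤ i} = i := by
  rw [Nat.card_congr (ivl n i h), Nat.card_fin]

lemma card_out {α : Type} (n i : ℕ) [NeZero n] (h : i < n) (e : α ≃ ZMod n) (u : α) :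
    Nat.card {v : α // 1 ≤ (e v - e u).val ∧ (e v - e u).val ≤ i} = i := by
  refine Eq.trans ?_ (card_ivl n i h)
  exact Nat.card_congr ((e.trans (Equiv.subRight (e u))).subtypeEquiv fun v => Iff.rfl)

lemma card_in {α : Type} (n i : ℕ) [NeZero n] (h : i < n) (e : α ≃ ZMod n) (v : α) :
    Nat.card {u : α // 1 ≤ (e v - e u).val ∧ (e v - e u).val ≤ i} = i := by
  refine Eq.trans ?_ (card_ivl n i h)
  exact Nat.card_congr ((e.trans (Equiv.subLeft (e v))).subtypeEquiv fun u => Iff.rfl)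

lemma loopless {α : Type} (n i : ℕ) (e : α ≃ ZMod n) (u : α) :
    ¬ (1 ≤ (e u - e u).val ∧ (e u - e u).val ≤ i) := by
  rw [sub_self, ZMod.val_zero]
  omega

end CircAux

open CircAux in
theorem circ : CIRC := by
  intro g i hg _ hi
  have hn : 0 < g ^ 2 := by positivity
  haveI : NeZero (g ^ 2) := ⟨hn.ne'⟩
  have hc : Fintype.card (ZMod g × ZMod g) = Fintype.card (ZMod (g ^ 2)) := by
    rw [Fintype.card_prod, ZMod.card, ZMod.card, sq]
  let e : ZMod g × ZMod g ≃ ZMod (g ^ 2) := Fintype.equivOfCardEq hc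
  refine ⟨fun u v => 1 ≤ (e v - e u).val ∧ (e v - e u).val ≤ i, ?_, ?_, ?_⟩
  · exact fun v => loopless (g ^ 2) i e v
  · exact fun v => card_out (g ^ 2) i hi e v
  · exact fun v => card_in (g ^ 2) i hi e v

end Pool.Agent.R467.DR
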