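import Pool.Agent.R467.DR.Defs

/-! DR-CONN (helper611) -/

namespace Pool.Agent.R467.DR

theorem conn : CONN := by
  intro g h f _ F C hf hF
  have hne : ∀ j, ∃ c, c ∈ F j := fun j =>
    Finset.card_pos.1 (by rw [hF j]; omega)
  have two : ∀ (b : Bool) (j j'' : Fin h) (s y s'' y'' : ZMod g),
      Relation.ReflTransGen (Arc F C) (b, j, s, y) (b, j'', s'', y'') := by
    intro b j j'' s y s'' y''
    obtain ⟨c, hc⟩ := hne j
    have h1 : Arc F C (b, j, s, y) (!b, j, y'' - c, s + c) := by
      refine Or.inl ⟨?_, ?_⟩
      · cases b <;> simp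
      · have e : s + c - s = c := by ring
        simp only [e]
        exact hc
    have h2 : Arc F C (!b, j, y'' - c, s + c) (b, j'', s'', y'') := by
      refine Or.inl ⟨?_, ?_⟩
      · cases b <;> simp
      · have e : y'' - (y'' - c) = c := by ring
        simp only [e]
        exact hc
    exact (Relation.ReflTransGen.single h1).tail h2
  rintro ⟨b, j, s, y⟩ ⟨b', j', s', y'⟩
  by_cases hb : b = b'
  · subst hb
    exact two b j j' s y s' y'
  · obtain ⟨c, hc⟩ := hne j
    have h1 : Arc F C (b, j, s, y) (b', j, s, s + c) := by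
      refine Or.inl ⟨hb, ?_⟩
      have e : s + c - s = c := by ring
      simp only [e]
      exact hc
    exact (Relation.ReflTransGen.single h1).trans (two b' j j' s (s + c) s' y')

end Pool.Agent.R467.DR
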