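import Mathlib

/-! Project DR (MP_9a58dc_co): `rho_r ~ log r` for the domination number of an `r`-regular
strongly connected digraph versus its reverse. -/

namespace Pool.Agent.R467.DR

/-- `A u v` means that there is an arc from `u` to `v`.  `r`-regular loopless digraph. -/
structure IsReg {V : Type} [Fintype V] (A : V → V → Prop) (r : ℕ) : Prop where
  loopless : ∀ v, ¬ A v v
  out_deg : ∀ v, Nat.card {w // A v w} = r
  in_deg : ∀ v, Nat.card {w // A w v} = r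

/-- strongly connected -/
def StrConn {V : Type} (A : V → V → Prop) : Prop := ∀ u v, Relation.ReflTransGen A u v

/-- `S` is (out-)dominating. -/
def Dom {V : Type} (A : V → V → Prop) (S : Finset V) : Prop := ∀ v, v ∉ S → ∃ u ∈ S, A u v

/-- domination number -/
noncomputable def gam {V : Type} (A : V → V → Prop) : ℕ :=
  sInf {k | ∃ S : Finset V, Dom A S ∧ S.card = k}

/-- the reverse digraph -/
def rev {V : Type} (A : V → V → Prop) : V → V → Prop := fun u v => A v u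

/-- set of the ratios `γ(D⁻)/γ(D)` over finite nonempty `r`-regular strongly connected digraphs -/
def ratios (r : ℕ) : Set ℝ :=
  {x | ∃ (V : Type) (_ : Fintype V) (_ : Nonempty V) (A : V → V → Prop),
    IsReg A r ∧ StrConn A ∧ x = (gam (rev A) : ℝ) / (gam A : ℝ)}

/-- `ρ_r` -/
noncomputable def rho (r : ℕ) : ℝ := sSup (ratios r)

/-- the construction: vertices `(b,j,s,y)`; cross arcs `(b,j,s,y) → (!b,j',s',y')` iff
`y' - s ∈ F j`; inner arcs inside the class `(b,j)` given by a relation `C` on `(s,y)`. -/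
def Arc {g h : ℕ} (F : Fin h → Finset (ZMod g)) (C : ZMod g × ZMod g → ZMod g × ZMod g → Prop) :
    Bool × Fin h × ZMod g × ZMod g → Bool × Fin h × ZMod g × ZMod g → Prop :=
  fun u v => (u.1 ≠ v.1 ∧ v.2.2.2 - u.2.2.1 ∈ F u.2.1) ∨
    (u.1 = v.1 ∧ u.2.1 = v.2.1 ∧ C u.2.2 v.2.2)

/-! ### The pieces -/

/-- DR-UB1 -/
def UB1 : Prop := ∀ (V : Type) [Fintype V] (A : V → V → Prop) (r : ℕ), IsReg A r →
  Fintype.card V ≤ (r + 1) * gam A

/-- DR-UB2 (greedy) -/
def UB2 : Prop := ∀ (V : Type) [Fintype V] [Nonempty V] (A : V → V → Prop) (r : ℕ), 1 ≤ r →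
  IsReg A r →
  (gam A : ℝ) ≤ (2 + Real.log (r + 1)) * ((Fintype.card V : ℝ) / (r + 1))

/-- DR-CIRC: a loopless `i`-regular digraph on `ZMod g × ZMod g`, `i < g ^ 2`. -/
def CIRC : Prop := ∀ g i : ℕ, 1 ≤ g → ∀ [NeZero g], i < g ^ 2 →
  ∃ C : ZMod g × ZMod g → ZMod g × ZMod g → Prop, IsReg C i

/-- DR-REG: regularity of the construction. -/
def REG : Prop := ∀ (g h f i : ℕ) [NeZero g] (F : Fin h → Finset (ZMod g))
  (C : ZMod g × ZMod g → ZMod g × ZMod g → Prop),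
  (∀ j, (F j).card = f) → IsReg C i → IsReg (Arc F C) (f * g * h + i)

/-- DR-CONN: strong connectivity of the construction. -/
def CONN : Prop := ∀ (g h f : ℕ) [NeZero g] (F : Fin h → Finset (ZMod g))
  (C : ZMod g × ZMod g → ZMod g × ZMod g → Prop), 1 ≤ f → (∀ j, (F j).card = f) →
  StrConn (Arc F C)

/-- DR-DOM: if one of the sets, together with `m` of its translates, covers `ZMod g`, then the
domination number is at most `2 m`. -/
def DOM : Prop := ∀ (g h m : ℕ) [NeZero g] (F : Fin h → Finset (ZMod g))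
  (C : ZMod g × ZMod g → ZMod g × ZMod g → Prop) (j : Fin h) (S : Finset (ZMod g)),
  S.card ≤ m → (∀ y : ZMod g, ∃ s ∈ S, y - s ∈ F j) → gam (Arc F C) ≤ 2 * m

/-- DR-REVD: lower bound for the reverse. -/
def REVD : Prop := ∀ (g h t : ℕ) [NeZero g] (F : Fin h → Finset (ZMod g))
  (C : ZMod g × ZMod g → ZMod g × ZMod g → Prop),
  (∀ Z : Finset (ZMod g), Z.card < t → 2 * t ≤ (Finset.univ.filter
    (fun j => Disjoint (F j) Z)).card) → 2 * t ≤ gam (rev (Arc F C))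

/-- DR-UNION (union bound): `N` blocks... existence of many sets missing every small set. -/
def UNION : Prop := ∀ (g f t N : ℕ) [NeZero g], 1 ≤ t → t + f ≤ g →
  (2 * t : ℝ) * (g : ℝ) ^ t * (1 - ((g - t).choose f : ℝ) / (g.choose f : ℝ)) ^ N < 1 →
  ∃ F : Fin (2 * t) → Fin N → Finset (ZMod g), (∀ a b, (F a b).card = f) ∧
    ∀ Z : Finset (ZMod g), Z.card < t → ∀ a, ∃ b, Disjoint (F a b) Z

/-- DR-PROB: lower bound for the probability. -/
def PROB : Prop := ∀ (m f t : ℕ), 2 ≤ m → 1 ≤ f → 2 * t ≤ (m - 1) * f →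
  Real.exp (-(((t : ℝ) / (m - 1)) * (1 + 2 * ((t : ℝ) / ((m - 1) * f))))) ≤
    ((m * f - t).choose f : ℝ) / ((m * f).choose f : ℝ)

/-- DR-PAR: choice of the parameters (pure analysis). -/
def PAR : Prop := ∀ ε : ℝ, 0 < ε → ε < 1 → ∃ (m : ℕ), 2 ≤ m ∧ ∀ᶠ r : ℕ in Filter.atTop,
  ∃ (f t N h : ℕ), 1 ≤ f ∧ 1 ≤ t ∧ 2 * t ≤ (m - 1) * f ∧ 
    (1 - ε) * Real.log r * m ≤ t ∧
    2 * t * N + 1 ≤ h ∧ f * (m * f) * h ≤ r ∧ r < f * (m * f) * h + (m * f) ^ 2 ∧
    (2 * t : ℝ) * ((m * f : ℕ) : ℝ) ^ t *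
      (1 - Real.exp (-(((t : ℝ) / (m - 1)) * (1 + 2 * ((t : ℝ) / ((m - 1) * f)))))) ^ N < 1

/-- DR-EX: for every `ε` and all large `r` there is a digraph with ratio `≥ (1 - ε) log r`. -/
def EX : Prop := ∀ ε : ℝ, 0 < ε → ε < 1 → ∀ᶠ r : ℕ in Filter.atTop,
  ∃ x ∈ ratios r, (1 - ε) * Real.log r ≤ x

/-- the final statement -/
def FIN : Prop := (∀ r, 1 ≤ r → BddAbove (ratios r)) ∧
  Filter.Tendsto (fun r : ℕ => rho r / Real.log r) Filter.atTop (nhds 1)

end Pool.Agent.R467.DR
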