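import Pool.Agent.R467.DR.Defs

namespace Pool.Agent.R467.DR

open Filter Topology

theorem ex' (hub1 : UB1) (hcirc : CIRC) (hreg : REG) (hconn : CONN) (hdom : DOM) (hrev : REVD)
    (hun : UNION) (hprob : PROB) (hpar : PAR) : EX := by
  classical
  intro ε hε hε1
  obtain ⟨m, hm, hev⟩ := hpar ε hε hε1
  filter_upwards [hev] with r hr
  obtain ⟨f, t, N, h, hf, ht, h2t, hlow, hN, hr1, hr2, hub⟩ := hr
  have hgpos : 0 < m * f := Nat.mul_pos (by omega) hf
  haveI : NeZero (m * f) := ⟨hgpos.ne'⟩
  -- the probability estimate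
  have hmf : (m - 1) * f + f = m * f := by
    obtain ⟨m', rfl⟩ : ∃ m', m = m' + 1 := ⟨m - 1, by omega⟩
    simp; ring
  have htf : t + f ≤ m * f := by omega
  have hp1 := hprob m f t hm hf h2t
  have hchle : (((m * f - t).choose f : ℕ) : ℝ) ≤ (((m * f).choose f : ℕ) : ℝ) := by
    exact_mod_cast Nat.choose_le_choose f (Nat.sub_le _ _)
  have hchpos : (0 : ℝ) < (((m * f).choose f : ℕ) : ℝ) := by
    exact_mod_cast Nat.choose_pos (by omega : f ≤ m * f)
  have hple : (((m * f - t).choose f : ℕ) : ℝ) / (((m * f).choose f : ℕ) : ℝ) ≤ 1 := by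
    rw [div_le_one hchpos]; exact hchle
  have hunion : (2 * t : ℝ) * ((m * f : ℕ) : ℝ) ^ t *
      (1 - ((m * f - t).choose f : ℝ) / ((m * f).choose f : ℝ)) ^ N < 1 := by
    refine lt_of_le_of_lt ?_ hub
    apply mul_le_mul_of_nonneg_left _ (by positivity)
    apply pow_le_pow_left₀
    · linarith
    · linarith
  obtain ⟨F0, hF0c, hF0⟩ := hun (m * f) f t N ht htf hunion
  obtain ⟨C, hC⟩ := hcirc (m * f) (r - f * (m * f) * h) (by omega) (by omega)
  -- the planted set
  let P0 : Finset (ZMod (m * f)) := (Finset.range f).image (fun a => ((m * a : ℕ) : ZMod (m * f)))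
  have hP0c : P0.card = f := by
    rw [Finset.card_image_of_injOn, Finset.card_range]
    intro a ha b hb hab
    simp only [Finset.coe_range, Set.mem_Iio] at ha hb
    have h1 := congrArg ZMod.val hab
    simp only at h1
    rw [ZMod.val_cast_of_lt (Nat.mul_lt_mul_of_pos_left ha (by omega)),
      ZMod.val_cast_of_lt (Nat.mul_lt_mul_of_pos_left hb (by omega))] at h1
    exact Nat.eq_of_mul_eq_mul_left (by omega) h1
  let S : Finset (ZMod (m * f)) := (Finset.range m).image (fun a => ((a : ℕ) : ZMod (m * f)))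
  have hSc : S.card ≤ m := by
    refine le_trans Finset.card_image_le ?_
    simp
  have hcov : ∀ y : ZMod (m * f), ∃ s ∈ S, y - s ∈ P0 := by
    intro y
    refine ⟨((y.val % m : ℕ) : ZMod (m * f)), ?_, ?_⟩
    · exact Finset.mem_image.2 ⟨y.val % m, Finset.mem_range.2 (Nat.mod_lt _ (by omega)), rfl⟩
    · refine Finset.mem_image.2 ⟨y.val / m, Finset.mem_range.2 ?_, ?_⟩
      · apply Nat.div_lt_of_lt_mul
        exact ZMod.val_lt y
      · rw [eq_sub_iff_add_eq, ← Nat.cast_add, Nat.div_add_mod, ZMod.natCast_zmod_val]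
  -- the family
  have he : ∀ p : Fin (2 * t) × Fin N, 1 + (finProdFinEquiv p).val < h := by
    intro p
    have := (finProdFinEquiv p).isLt
    omega
  let e : Fin (2 * t) × Fin N → Fin h := fun p => ⟨1 + (finProdFinEquiv p).val, he p⟩
  have heinj : Function.Injective e := by
    intro p q hpq
    have h1 := congrArg Fin.val hpq
    simp only [e] at h1
    apply finProdFinEquiv.injective
    apply Fin.ext
    omega
  have hh : 0 < h := by omega
  let F : Fin h → Finset (ZMod (m * f)) :=
    Function.extend e (fun p => F0 p.1 p.2) (fun _ => P0)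
  have hFe : ∀ p, F (e p) = F0 p.1 p.2 := fun p => heinj.extend_apply _ _ _
  have hF00 : F ⟨0, hh⟩ = P0 := by
    apply Function.extend_apply'
    rintro ⟨p, hp⟩
    have := congrArg Fin.val hp
    simp only [e] at this
    omega
  have hFc : ∀ j, (F j).card = f := by
    intro j
    by_cases hj : ∃ p, e p = j
    · obtain ⟨p, rfl⟩ := hj
      rw [hFe]; exact hF0c _ _
    · have : F j = P0 := Function.extend_apply' _ _ _ hj
      rw [this]; exact hP0c
  haveI : Nonempty (Bool × Fin h × ZMod (m * f) × ZMod (m * f)) := ⟨(true, ⟨0, hh⟩, 0, 0)⟩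
  have hR : IsReg (Arc F C) (f * (m * f) * h + (r - f * (m * f) * h)) :=
    hreg (m * f) h f _ F C hFc hC
  rw [Nat.add_sub_cancel' hr1] at hR
  have hS : StrConn (Arc F C) := hconn (m * f) h f F C hf hFc
  have hD : gam (Arc F C) ≤ 2 * m :=
    hdom (m * f) h m F C ⟨0, hh⟩ S hSc (by rw [hF00]; exact hcov)
  have hV : 2 * t ≤ gam (rev (Arc F C)) := by
    apply hrev (m * f) h t F C
    intro Z hZ
    choose b hb using hF0 Z hZ
    have hinj : Function.Injective (fun a : Fin (2 * t) => e (a, b a)) := by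
      intro a a' haa
      have := heinj haa
      exact (Prod.mk.inj this).1
    calc 2 * t = (Finset.univ : Finset (Fin (2 * t))).card := by simp
      _ = (Finset.univ.image (fun a : Fin (2 * t) => e (a, b a))).card :=
          (Finset.card_image_of_injective _ hinj).symm
      _ ≤ _ := by
          apply Finset.card_le_card
          intro j hj
          obtain ⟨a, -, rfl⟩ := Finset.mem_image.1 hj
          rw [Finset.mem_filter]
          refine ⟨Finset.mem_univ _, ?_⟩
          rw [hFe]
          exact hb a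
  have hpos : 0 < gam (Arc F C) := by
    have h1 := hub1 _ (Arc F C) r hR
    have h2 : 0 < Fintype.card (Bool × Fin h × ZMod (m * f) × ZMod (m * f)) := Fintype.card_pos
    rcases Nat.eq_zero_or_pos (gam (Arc F C)) with h0 | h0
    · rw [h0] at h1; omega
    · exact h0
  refine ⟨(gam (rev (Arc F C)) : ℝ) / (gam (Arc F C) : ℝ),
    ⟨Bool × Fin h × ZMod (m * f) × ZMod (m * f), inferInstance, inferInstance, Arc F C, hR, hS,
      rfl⟩, ?_⟩
  have hpos' : (0 : ℝ) < gam (Arc F C) := by exact_mod_cast hpos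
  rw [le_div_iff₀ hpos']
  have hlog : 0 ≤ Real.log (r : ℝ) := Real.log_natCast_nonneg r
  have hD' : (gam (Arc F C) : ℝ) ≤ 2 * m := by exact_mod_cast hD
  have hV' : (2 * t : ℝ) ≤ gam (rev (Arc F C)) := by exact_mod_cast hV
  have h1 : 0 ≤ (1 - ε) * Real.log r := mul_nonneg (by linarith) hlog
  calc (1 - ε) * Real.log r * (gam (Arc F C) : ℝ) ≤ (1 - ε) * Real.log r * (2 * m) :=
        mul_le_mul_of_nonneg_left hD' h1
    _ = 2 * ((1 - ε) * Real.log r * m) := by ring
    _ ≤ 2 * t := by linarith
    _ ≤ _ := hV'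

end Pool.Agent.R467.DR
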