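import Pool.Agent.R467.DR.Defs

set_option autoImplicit false

namespace Pool.Agent.R467.DR.PROBaux

open Finset

theorem exp_le {x : ℝ} (h0 : 0 ≤ x) (h1 : x ≤ 1 / 2) : Real.exp (-(x * (1 + 2 * x))) ≤ 1 - x := by
  have hpos : 0 < 1 - x := by linarith
  have h2 := Real.one_sub_inv_le_log_of_pos hpos
  have h3 : (1 - x)⁻¹ ≤ 1 + 2 * x + 0 := by
    rw [inv_eq_one_div, div_le_iff₀ hpos]
    nlinarith
  have h4 : -(x * (1 + 2 * x)) ≤ Real.log (1 - x) := by
    refine le_trans ?_ h2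
    have h5 : 1 - (1 - x)⁻¹ = -(x * (1 - x)⁻¹) := by
      field_simp
      ring
    rw [h5, neg_le_neg_iff]
    apply mul_le_mul_of_nonneg_left _ h0
    linarith
  calc Real.exp (-(x * (1 + 2 * x))) ≤ Real.exp (Real.log (1 - x)) := Real.exp_le_exp.2 h4
    _ = 1 - x := Real.exp_log hpos

theorem choose_ge (g f t : ℕ) (hf : f < g) (ht : t + f ≤ g) :
    (1 - (t : ℝ) / ((g : ℝ) - f)) ^ f * (g.choose f : ℝ) ≤ ((g - t).choose f : ℝ) := by
  have hfac : (0 : ℝ) < (f.factorial : ℝ) := by exact_mod_cast f.factorial_pos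
  have e1 : (f.factorial : ℝ) * (g.choose f : ℝ) = ∏ i ∈ range f, ((g : ℝ) - i) := by
    have h := Nat.descFactorial_eq_factorial_mul_choose g f
    rw [Nat.descFactorial_eq_prod_range] at h
    have h' := congrArg (fun z : ℕ => (z : ℝ)) h
    simp only [Nat.cast_prod, Nat.cast_mul] at h'
    rw [← h']
    apply prod_congr rfl
    intro i hi
    rw [mem_range] at hi
    rw [Nat.cast_sub (by omega)]
  have e2 : (f.factorial : ℝ) * ((g - t).choose f : ℝ) = ∏ i ∈ range f, ((g : ℝ) - t - i) := by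
    have h := Nat.descFactorial_eq_factorial_mul_choose (g - t) f
    rw [Nat.descFactorial_eq_prod_range] at h
    have h' := congrArg (fun z : ℕ => (z : ℝ)) h
    simp only [Nat.cast_prod, Nat.cast_mul] at h'
    rw [← h']
    apply prod_congr rfl
    intro i hi
    rw [mem_range] at hi
    rw [Nat.cast_sub (by omega), Nat.cast_sub (by omega)]
  have hgf : (0 : ℝ) < (g : ℝ) - f := by
    have : (f : ℝ) < g := by exact_mod_cast hf
    linarith
  have htg : (t : ℝ) + f ≤ g := by exact_mod_cast ht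
  have ht0 : (0 : ℝ) ≤ t := Nat.cast_nonneg t
  have hx1 : 0 ≤ 1 - (t : ℝ) / ((g : ℝ) - f) := by
    rw [sub_nonneg, div_le_one hgf]
    linarith
  have e3 : ∏ i ∈ range f, ((1 - (t : ℝ) / ((g : ℝ) - f)) * ((g : ℝ) - i)) ≤
      ∏ i ∈ range f, ((g : ℝ) - t - i) := by
    apply prod_le_prod
    · intro i hi
      rw [mem_range] at hi
      have hi' : (i : ℝ) ≤ f := by exact_mod_cast hi.le
      apply mul_nonneg hx1
      linarith
    · intro i hi
      rw [mem_range] at hi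
      have hi' : (i : ℝ) ≤ f := by exact_mod_cast hi.le
      have h6 : (1 - (t : ℝ) / ((g : ℝ) - f)) * ((g : ℝ) - i)
          = ((g : ℝ) - i) - t * (((g : ℝ) - i) / ((g : ℝ) - f)) := by ring
      rw [h6]
      have h7 : (1 : ℝ) ≤ ((g : ℝ) - i) / ((g : ℝ) - f) := by
        rw [le_div_iff₀ hgf]
        linarith
      nlinarith
  rw [prod_mul_distrib, prod_const, card_range, ← e1, ← e2] at e3
  have e4 : (f.factorial : ℝ) * ((1 - (t : ℝ) / ((g : ℝ) - f)) ^ f * (g.choose f : ℝ)) ≤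
      (f.factorial : ℝ) * ((g - t).choose f : ℝ) := by
    linarith
  exact le_of_mul_le_mul_left e4 hfac

theorem core (g f t : ℕ) (hf : f < g) (ht : 2 * t ≤ g - f) :
    Real.exp (-((f : ℝ) * ((t : ℝ) / ((g : ℝ) - f)) * (1 + 2 * ((t : ℝ) / ((g : ℝ) - f))))) *
      (g.choose f : ℝ) ≤ ((g - t).choose f : ℝ) := by
  have hgf : (0 : ℝ) < (g : ℝ) - f := by
    have : (f : ℝ) < g := by exact_mod_cast hf
    linarith
  have htr : 2 * (t : ℝ) ≤ (g : ℝ) - f := by
    have h : ((2 * t : ℕ) : ℝ) ≤ ((g - f : ℕ) : ℝ) := by exact_mod_cast ht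
    rw [Nat.cast_sub hf.le] at h
    push_cast at h
    exact h
  have hx0 : 0 ≤ (t : ℝ) / ((g : ℝ) - f) := div_nonneg (Nat.cast_nonneg t) hgf.le
  have hx1 : (t : ℝ) / ((g : ℝ) - f) ≤ 1 / 2 := by
    rw [div_le_iff₀ hgf]
    linarith
  refine le_trans ?_ (choose_ge g f t hf (by omega))
  apply mul_le_mul_of_nonneg_right _ (Nat.cast_nonneg _)
  have h1 := pow_le_pow_left₀ (Real.exp_pos _).le (exp_le hx0 hx1) f
  rw [← Real.exp_nat_mul] at h1
  refine le_trans (le_of_eq ?_) h1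
  congr 1
  ring

end Pool.Agent.R467.DR.PROBaux


namespace Pool.Agent.R467.DR

/-- DR-PROB -/
theorem prob : PROB := by
  intro m f t hm hf ht
  have hlt : f < m * f := by nlinarith
  have ht' : 2 * t ≤ m * f - f := by
    have : (m - 1) * f = m * f - f := by rw [Nat.sub_mul, Nat.one_mul]
    omega
  have h := Pool.Agent.R467.DR.PROBaux.core (m * f) f t hlt ht'
  have hc : (0 : ℝ) < ((m * f).choose f : ℝ) := by
    exact_mod_cast Nat.choose_pos hlt.le
  rw [le_div_iff₀ hc]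
  refine le_trans (le_of_eq ?_) h
  have hfr : (0 : ℝ) < f := by exact_mod_cast hf
  have hmr : (0 : ℝ) < (m : ℝ) - 1 := by
    have : (2 : ℝ) ≤ m := by exact_mod_cast hm
    linarith
  have e1 : ((m * f : ℕ) : ℝ) - f = ((m : ℝ) - 1) * f := by push_cast; ring
  rw [e1]
  have e2 : (f : ℝ) * ((t : ℝ) / (((m : ℝ) - 1) * f)) = (t : ℝ) / ((m : ℝ) - 1) := by
    field_simp
  rw [e2]

end Pool.Agent.R467.DR

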