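import Pool.Agent.R467.DR.Defs

/-! DR-REG: regularity of the construction. -/

set_option autoImplicit false
open Finset

namespace Pool.Agent.R467.DR

namespace RegAux

variable {g h : ℕ}

/-- cross out-neighbours -/
theorem card_out [NeZero g] (F : Fin h → Finset (ZMod g)) (f : ℕ) (hF : ∀ j, (F j).card = f)
    (b : Bool) (j : Fin h) (s : ZMod g) :
    Set.ncard {x : Bool × Fin h × ZMod g × ZMod g | b ≠ x.1 ∧ x.2.2.2 - s ∈ F j} = f * g * h := by
  have h1 : {x : Bool × Fin h × ZMod g × ZMod g | b ≠ x.1 ∧ x.2.2.2 - s ∈ F j} =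
      (fun p : (Fin h × ZMod g) × ZMod g =>
          ((!b, p.1.1, p.1.2, p.2 + s) : Bool × Fin h × ZMod g × ZMod g)) ''
        (↑(((univ : Finset (Fin h)) ×ˢ (univ : Finset (ZMod g))) ×ˢ (F j)) :
          Set ((Fin h × ZMod g) × ZMod g)) := by
    ext ⟨b', j', s', y'⟩
    simp only [Set.mem_ofPred_eq, Set.mem_image, mem_coe, mem_product, mem_univ, true_and,
      Prod.exists, Prod.mk.injEq]
    constructor
    · rintro ⟨hb, hy⟩
      exact ⟨j', s', y' - s, hy, by cases b <;> cases b' <;> simp_all, rfl, rfl, by ring⟩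
    · rintro ⟨a1, a2, a3, ha, rfl, rfl, rfl, rfl⟩
      refine ⟨by simp, ?_⟩
      rwa [add_sub_cancel_right]
  rw [h1, Set.ncard_image_of_injective, Set.ncard_coe_finset, card_product, card_product, hF,
    card_univ, card_univ, Fintype.card_fin, ZMod.card]
  · ring
  · rintro ⟨⟨a1, a2⟩, a3⟩ ⟨⟨c1, c2⟩, c3⟩ hh
    simp only [Prod.mk.injEq, true_and] at hh
    obtain ⟨e1, e2, e3⟩ := hh
    simp only [Prod.mk.injEq]
    exact ⟨⟨e1, e2⟩, add_right_cancel e3⟩

/-- cross in-neighbours -/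
theorem card_in [NeZero g] (F : Fin h → Finset (ZMod g)) (f : ℕ) (hF : ∀ j, (F j).card = f)
    (b : Bool) (y' : ZMod g) :
    Set.ncard {x : Bool × Fin h × ZMod g × ZMod g | x.1 ≠ b ∧ y' - x.2.2.1 ∈ F x.2.1} =
      f * g * h := by
  have h1 : {x : Bool × Fin h × ZMod g × ZMod g | x.1 ≠ b ∧ y' - x.2.2.1 ∈ F x.2.1} =
      (fun p : (Σ _ : Fin h, ZMod g × ZMod g) =>
          ((!b, p.1, y' - p.2.1, p.2.2) : Bool × Fin h × ZMod g × ZMod g)) ''
        (↑((univ : Finset (Fin h)).sigma (fun j => (F j) ×ˢ (univ : Finset (ZMod g)))) :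
          Set (Σ _ : Fin h, ZMod g × ZMod g)) := by
    ext ⟨b', j', s', y''⟩
    simp only [Set.mem_ofPred_eq, Set.mem_image, mem_coe, mem_sigma, mem_product, mem_univ,
      true_and, and_true, Sigma.exists, Prod.exists, Prod.mk.injEq]
    constructor
    · rintro ⟨hb, hy⟩
      exact ⟨j', y' - s', y'', hy, by cases b <;> cases b' <;> simp_all, rfl, by ring, rfl⟩
    · rintro ⟨a1, a2, a3, ha, rfl, rfl, rfl, rfl⟩
      refine ⟨by simp, ?_⟩
      rwa [sub_sub_cancel]
  rw [h1, Set.ncard_image_of_injective, Set.ncard_coe_finset, card_sigma]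
  · simp only [card_product, hF, card_univ, ZMod.card, sum_const, Fintype.card_fin, smul_eq_mul]
    ring
  · rintro ⟨a1, a2, a3⟩ ⟨c1, c2, c3⟩ hh
    simp only [Prod.mk.injEq, true_and] at hh
    obtain ⟨e1, e2, e3⟩ := hh
    subst e1
    have e2' : a2 = c2 := by simpa using e2
    subst e2'
    subst e3
    rfl

/-- inner neighbours -/
theorem card_inner (P : ZMod g × ZMod g → Prop) (b : Bool) (j : Fin h) :
    Set.ncard {x : Bool × Fin h × ZMod g × ZMod g | x.1 = b ∧ x.2.1 = j ∧ P x.2.2} =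
      Set.ncard {z | P z} := by
  have h1 : {x : Bool × Fin h × ZMod g × ZMod g | x.1 = b ∧ x.2.1 = j ∧ P x.2.2} =
      (fun z : ZMod g × ZMod g => ((b, j, z) : Bool × Fin h × ZMod g × ZMod g)) '' {z | P z} := by
    ext ⟨b', j', z⟩
    simp only [Set.mem_ofPred_eq, Set.mem_image, Prod.mk.injEq]
    constructor
    · rintro ⟨rfl, rfl, hy⟩
      exact ⟨z, hy, rfl, rfl, rfl⟩
    · rintro ⟨z', hz, rfl, rfl, rfl⟩
      exact ⟨rfl, rfl, hz⟩
  rw [h1, Set.ncard_image_of_injective]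
  intro a c hh
  simpa using hh

theorem card_subtype_eq {α : Type} (P : α → Prop) : Nat.card {x // P x} = Set.ncard {x | P x} :=
  rfl

end RegAux

open RegAux in
theorem reg : REG := by
  intro g h f i _ F C hF hC
  refine ⟨?_, ?_, ?_⟩
  · rintro v (⟨h1, _⟩ | ⟨_, _, h1⟩)
    · exact h1 rfl
    · exact hC.loopless _ h1
  · intro v
    rw [card_subtype_eq]
    have hu : {w | Arc F C v w} =
        {x : Bool × Fin h × ZMod g × ZMod g | v.1 ≠ x.1 ∧ x.2.2.2 - v.2.2.1 ∈ F v.2.1} ∪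
        {x : Bool × Fin h × ZMod g × ZMod g | x.1 = v.1 ∧ x.2.1 = v.2.1 ∧ C v.2.2 x.2.2} := by
      ext x
      simp only [Arc, Set.mem_ofPred_eq, Set.mem_union]
      constructor
      · rintro (h1 | ⟨h1, h2, h3⟩)
        · exact Or.inl h1
        · exact Or.inr ⟨h1.symm, h2.symm, h3⟩
      · rintro (h1 | ⟨h1, h2, h3⟩)
        · exact Or.inl h1
        · exact Or.inr ⟨h1.symm, h2.symm, h3⟩
    rw [hu, Set.ncard_union_eq _ (Set.toFinite _) (Set.toFinite _), card_out F f hF,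
      card_inner (fun z => C v.2.2 z)]
    · rw [← card_subtype_eq, hC.out_deg]
    · rw [Set.disjoint_left]
      rintro x ⟨h1, _⟩ ⟨h2, _⟩
      exact h1 h2.symm
  · intro v
    rw [card_subtype_eq]
    have hu : {w | Arc F C w v} =
        {x : Bool × Fin h × ZMod g × ZMod g | x.1 ≠ v.1 ∧ v.2.2.2 - x.2.2.1 ∈ F x.2.1} ∪
        {x : Bool × Fin h × ZMod g × ZMod g | x.1 = v.1 ∧ x.2.1 = v.2.1 ∧ C x.2.2 v.2.2} := by
      ext x
      simp only [Arc, Set.mem_ofPred_eq, Set.mem_union]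
    rw [hu, Set.ncard_union_eq _ (Set.toFinite _) (Set.toFinite _), card_in F f hF,
      card_inner (fun z => C z v.2.2)]
    · rw [← card_subtype_eq, hC.in_deg]
    · rw [Set.disjoint_left]
      rintro x ⟨h1, _⟩ ⟨h2, _⟩
      exact h1 h2

end Pool.Agent.R467.DR
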