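import Pool.Agent.R467.DR.Defs

/-! DR-REVD: lower bound for the domination number of the reverse (helper835). -/

namespace Pool.Agent.R467.DR

theorem revd : REVD := by
  classical
  intro g h t _ F C hZ
  haveI : Fintype (ZMod g) := ZMod.fintype g
  have hne : {k | ∃ S : Finset (Bool × Fin h × ZMod g × ZMod g),
      Dom (rev (Arc F C)) S ∧ S.card = k}.Nonempty :=
    ⟨_, Finset.univ, fun v hv => absurd (Finset.mem_univ v) hv, rfl⟩
  refine le_csInf hne ?_
  rintro k ⟨T, hT, rfl⟩
  by_cases hb : ∃ b : Bool, (T.filter (fun v => v.1 = b)).card < t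
  · obtain ⟨b, hb⟩ := hb
    have h1 := hZ ((T.filter (fun v => v.1 = b)).image (fun v => v.2.2.2))
      (lt_of_le_of_lt Finset.card_image_le hb)
    refine h1.trans ((Finset.card_le_card (t := T.image (fun u => u.2.1)) ?_).trans
      Finset.card_image_le)
    intro j hj
    rw [Finset.mem_filter] at hj
    have hd := Finset.disjoint_left.1 hj.2
    by_cases hv : ((!b, j, 0, 0) : Bool × Fin h × ZMod g × ZMod g) ∈ T
    · exact Finset.mem_image.2 ⟨_, hv, rfl⟩
    · obtain ⟨u, hu, hA⟩ := hT _ hv
      have hA' : Arc F C (!b, j, 0, 0) u := hA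
      rcases hA' with ⟨h2, h3⟩ | ⟨h2, h3, -⟩
      · exfalso
        have hub : u.1 = b := by
          cases hu1 : u.1 <;> cases hb1 : b <;> simp_all
        have h4 : u.2.2.2 ∈ F j := by simpa using h3
        exact hd h4 (Finset.mem_image.2 ⟨u, Finset.mem_filter.2 ⟨hu, hub⟩, rfl⟩)
      · exact Finset.mem_image.2 ⟨u, hu, h3.symm⟩
  · push Not at hb
    have h1 := hb true
    have h2 := hb false
    have hdis : Disjoint (T.filter (fun v => v.1 = true)) (T.filter (fun v => v.1 = false)) := by
      rw [Finset.disjoint_left]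
      intro v hv hv'
      rw [Finset.mem_filter] at hv hv'
      rw [hv.2] at hv'
      exact absurd hv'.2 (by decide)
    have h3 : (T.filter (fun v => v.1 = true) ∪ T.filter (fun v => v.1 = false)).card ≤ T.card :=
      Finset.card_le_card (Finset.union_subset (Finset.filter_subset _ _)
        (Finset.filter_subset _ _))
    rw [Finset.card_union_of_disjoint hdis] at h3
    omega

end Pool.Agent.R467.DR
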