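import Pool.Agent.R467.DR.Defs

/-! DR-UB1: the trivial lower bound for the domination number. -/

namespace Pool.Agent.R467.DR

theorem ub1 : UB1 := by
  classical
  intro V _ A r hA
  have hne : {k | ∃ S : Finset V, Dom A S ∧ S.card = k}.Nonempty :=
    ⟨_, Finset.univ, fun v hv => absurd (Finset.mem_univ v) hv, rfl⟩
  obtain ⟨S, hS, hc⟩ := Nat.sInf_mem hne
  have hcov : (Finset.univ : Finset V) ⊆
      S.biUnion (fun u => insert u (Finset.univ.filter (fun w => A u w))) := by
    intro v _
    rw [Finset.mem_biUnion]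
    by_cases hv : v ∈ S
    · exact ⟨v, hv, Finset.mem_insert_self _ _⟩
    · obtain ⟨u, hu, huv⟩ := hS v hv
      exact ⟨u, hu, Finset.mem_insert_of_mem (Finset.mem_filter.2 ⟨Finset.mem_univ v, huv⟩)⟩
  have hcard : ∀ u ∈ S, (insert u (Finset.univ.filter (fun w => A u w))).card ≤ r + 1 := by
    intro u _
    have h1 := hA.out_deg u
    rw [Nat.card_eq_fintype_card, Fintype.card_subtype] at h1
    have h2 := Finset.card_insert_le u (Finset.univ.filter (fun w => A u w))
    omega
  have h1 := (Finset.card_le_card hcov).trans (Finset.card_biUnion_le_card_mul _ _ _ hcard)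
  rw [Finset.card_univ, hc, mul_comm] at h1
  exact h1

end Pool.Agent.R467.DR
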