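import Pool.Agent.R467.DR.Defs

set_option autoImplicit false

namespace Pool.Agent.R467.DR.UB2aux

open Finset

variable {V : Type*} [Fintype V] [DecidableEq V]

/-- not covered by the sets `N v`, `v ∈ S` -/
def unc (N : V → Finset V) (S : Finset V) : Finset V := univ.filter fun u => ∀ v ∈ S, u ∉ N v

theorem step (N : V → Finset V) (r : ℕ) (hin : ∀ u, (univ.filter fun v => u ∈ N v).card = r + 1)
    (hn : 0 < Fintype.card V) (S : Finset V) : ∃ v, ((unc N (insert v S)).card : ℝ) ≤
      (unc N S).card * (1 - (r + 1) / Fintype.card V) := by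
  have hn' : (0 : ℝ) < Fintype.card V := by exact_mod_cast hn
  have hcount : ∑ v : V, (((unc N S).filter fun u => u ∈ N v).card : ℝ) =
      (r + 1) * (unc N S).card := by
    have h1 : ∑ v : V, ((unc N S).filter fun u => u ∈ N v).card =
        ∑ u ∈ unc N S, (univ.filter fun v => u ∈ N v).card := by
      simp only [Finset.card_filter]
      rw [Finset.sum_comm]
    rw [Finset.sum_congr rfl (fun u _ => hin u), Finset.sum_const, smul_eq_mul] at h1
    have h2 := congrArg (fun x : ℕ => (x : ℝ)) h1
    push_cast at h2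
    rw [h2]
    ring
  obtain ⟨v, hv⟩ : ∃ v : V, (r + 1) * ((unc N S).card : ℝ) / Fintype.card V ≤
      (((unc N S).filter fun u => u ∈ N v).card : ℝ) := by
    by_contra hcon
    push Not at hcon
    have hne : (univ : Finset V).Nonempty := by
      rw [← Finset.card_pos, Finset.card_univ]; exact hn
    have h3 := Finset.sum_lt_sum_of_nonempty hne (fun v _ => hcon v)
    rw [hcount, Finset.sum_const, Finset.card_univ, nsmul_eq_mul] at h3
    rw [mul_div_cancel₀ _ hn'.ne'] at h3
    exact lt_irrefl _ h3
  refine ⟨v, ?_⟩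
  have h4 : unc N (insert v S) = (unc N S).filter fun u => u ∉ N v := by
    ext u
    simp only [unc, Finset.mem_filter, Finset.mem_univ, true_and, Finset.mem_insert]
    constructor
    · intro h
      exact ⟨fun w hw => h w (Or.inr hw), h v (Or.inl rfl)⟩
    · rintro ⟨h1, h2⟩ w (rfl | hw)
      · exact h2
      · exact h1 w hw
  have h5 : ((unc N S).filter fun u => u ∈ N v).card + ((unc N S).filter fun u => u ∉ N v).card =
      (unc N S).card := Finset.card_filter_add_card_filter_not _
  have h6 := congrArg (fun x : ℕ => (x : ℝ)) h5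
  push_cast at h6
  rw [h4]
  have h7 : ((unc N S).card : ℝ) * (1 - (r + 1) / Fintype.card V) =
      (unc N S).card - (r + 1) * ((unc N S).card : ℝ) / Fintype.card V := by
    field_simp
  rw [h7]
  linarith

theorem greedy (N : V → Finset V) (r : ℕ)
    (hin : ∀ u, (univ.filter fun v => u ∈ N v).card = r + 1) (hn : 0 < Fintype.card V)
    (hr : (r : ℝ) + 1 ≤ Fintype.card V) (k : ℕ) :
    ∃ S : Finset V, S.card ≤ k ∧ ((unc N S).card : ℝ) ≤
      Fintype.card V * (1 - (r + 1) / Fintype.card V) ^ k := by
  have hn' : (0 : ℝ) < Fintype.card V := by exact_mod_cast hn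
  have hq : 0 ≤ 1 - ((r : ℝ) + 1) / Fintype.card V := by
    rw [sub_nonneg, div_le_one hn']
    exact hr
  induction k with
  | zero =>
    refine ⟨∅, by simp, ?_⟩
    rw [pow_zero, mul_one]
    exact_mod_cast Finset.card_le_univ _
  | succ k ih =>
    obtain ⟨S, hS, hU⟩ := ih
    obtain ⟨v, hv⟩ := step N r hin hn S
    refine ⟨insert v S, (Finset.card_insert_le _ _).trans (by omega), hv.trans ?_⟩
    rw [pow_succ, ← mul_assoc]
    exact mul_le_mul_of_nonneg_right hU hq

theorem gen (N : V → Finset V) (r : ℕ)
    (hin : ∀ u, (univ.filter fun v => u ∈ N v).card = r + 1) (hself : ∀ u, u ∈ N u) :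
    ∃ D : Finset V, (∀ u, ∃ v ∈ D, u ∈ N v) ∧
      (D.card : ℝ) ≤ (2 + Real.log (r + 1)) * (Fintype.card V / (r + 1)) := by
  by_cases hV : IsEmpty V
  · refine ⟨∅, fun u => (hV.false u).elim, ?_⟩
    rw [Fintype.card_eq_zero]
    simp
  · rw [not_isEmpty_iff] at hV
    obtain ⟨u0⟩ := hV
    have hr' : r + 1 ≤ Fintype.card V := by
      rw [← hin u0]
      exact Finset.card_le_univ _
    have hr : (r : ℝ) + 1 ≤ Fintype.card V := by exact_mod_cast hr'
    have hn : 0 < Fintype.card V := by omega
    have hn' : (0 : ℝ) < Fintype.card V := by exact_mod_cast hn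
    have hr0 : (0 : ℝ) < (r : ℝ) + 1 := by positivity
    obtain ⟨k, hk⟩ : ∃ k : ℕ, k = ⌈(Fintype.card V : ℝ) * Real.log (r + 1) / (r + 1)⌉₊ := ⟨_, rfl⟩
    obtain ⟨S, hS, hU⟩ := greedy N r hin hn hr k
    refine ⟨S ∪ unc N S, fun u => ?_, ?_⟩
    · by_cases h : u ∈ unc N S
      · exact ⟨u, Finset.mem_union_right _ h, hself u⟩
      · simp only [unc, Finset.mem_filter, Finset.mem_univ, true_and] at h
        push Not at h
        obtain ⟨v, hv, hu⟩ := h
        exact ⟨v, Finset.mem_union_left _ hv, hu⟩
    · have hlog : 0 ≤ Real.log ((r : ℝ) + 1) := Real.log_nonneg (by linarith [Nat.cast_nonneg (α := ℝ) r])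
      have k1 : (Fintype.card V : ℝ) * Real.log (r + 1) / (r + 1) ≤ k := by
        rw [hk]; exact Nat.le_ceil _
      have k2 : (k : ℝ) ≤ (Fintype.card V : ℝ) * Real.log (r + 1) / (r + 1) + 1 := by
        rw [hk]; exact (Nat.ceil_lt_add_one (by positivity)).le
      have hq : 0 ≤ 1 - ((r : ℝ) + 1) / Fintype.card V := by
        rw [sub_nonneg, div_le_one hn']
        exact hr
      have e1 : (1 - ((r : ℝ) + 1) / Fintype.card V) ^ k ≤ 1 / ((r : ℝ) + 1) := by
        have a1 : (1 - ((r : ℝ) + 1) / Fintype.card V) ≤
            Real.exp (-(((r : ℝ) + 1) / Fintype.card V)) := Real.one_sub_le_exp_neg _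
        have a2 := pow_le_pow_left₀ hq a1 k
        rw [← Real.exp_nat_mul] at a2
        refine a2.trans ?_
        have a3 : 1 / ((r : ℝ) + 1) = Real.exp (-Real.log ((r : ℝ) + 1)) := by
          rw [Real.exp_neg, Real.exp_log hr0, one_div]
        rw [a3]
        apply Real.exp_le_exp.2
        have a4 : Real.log ((r : ℝ) + 1) ≤ k * (((r : ℝ) + 1) / Fintype.card V) := by
          have := mul_le_mul_of_nonneg_right k1
            (show 0 ≤ ((r : ℝ) + 1) / Fintype.card V by positivity)
          refine le_trans (le_of_eq ?_) this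
          field_simp
        linarith
      have e2 : ((unc N S).card : ℝ) ≤ Fintype.card V / (r + 1) := by
        refine hU.trans ?_
        have := mul_le_mul_of_nonneg_left e1 hn'.le
        rwa [mul_one_div] at this
      have e3 : ((S ∪ unc N S).card : ℝ) ≤ S.card + (unc N S).card := by
        exact_mod_cast Finset.card_union_le _ _
      have e4 : (S.card : ℝ) ≤ k := by exact_mod_cast hS
      have e5 : (1 : ℝ) ≤ Fintype.card V / (r + 1) := by
        rw [le_div_iff₀ hr0]; linarith
      have e6 : (Fintype.card V : ℝ) * Real.log (r + 1) / (r + 1) =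
          Real.log (r + 1) * (Fintype.card V / (r + 1)) := by ring
      rw [e6] at k2
      linarith

end Pool.Agent.R467.DR.UB2aux

namespace Pool.Agent.R467.DR

open Finset in
/-- DR-UB2 -/
theorem ub2 : UB2 := by
  classical
  intro V _ _ A r _ hA
  have hin : ∀ u : V, (univ.filter fun v => u ∈ (insert v (univ.filter fun w => A v w) :
      Finset V)).card = r + 1 := by
    intro u
    have h1 : (univ.filter fun v => u ∈ (insert v (univ.filter fun w => A v w) : Finset V)) =
        insert u (univ.filter fun w => A w u) := by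
      ext v
      simp only [Finset.mem_filter, Finset.mem_univ, true_and, Finset.mem_insert]
      constructor
      · rintro (h | h)
        · exact Or.inl h.symm
        · exact Or.inr h
      · rintro (h | h)
        · exact Or.inl h.symm
        · exact Or.inr h
    have h2 : (univ.filter fun w => A w u).card = r := by
      have := hA.in_deg u
      rw [Nat.card_eq_fintype_card, Fintype.card_subtype] at this
      exact this
    rw [h1, Finset.card_insert_of_notMem, h2]
    simp only [Finset.mem_filter, Finset.mem_univ, true_and]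
    exact hA.loopless u
  obtain ⟨D, hD, hcard⟩ := UB2aux.gen (fun v : V => insert v (univ.filter fun w => A v w)) r hin
    (fun u => Finset.mem_insert_self _ _)
  have hdom : Dom A D := by
    intro v hv
    obtain ⟨w, hw, hvw⟩ := hD v
    refine ⟨w, hw, ?_⟩
    rcases Finset.mem_insert.1 hvw with h | h
    · rw [h] at hv
      exact absurd hw hv
    · exact (Finset.mem_filter.1 h).2
  have h1 : gam A ≤ D.card := by
    unfold gam
    exact Nat.sInf_le ⟨D, hdom, rfl⟩
  have h2 : (gam A : ℝ) ≤ D.card := by exact_mod_cast h1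
  exact h2.trans hcard

end Pool.Agent.R467.DR
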