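import Pool.Agent.R467.DR.Defs

/-! Project DR, piece UNION (union bound) -/

set_option autoImplicit false

namespace Pool.Agent.R467.DR.UNIONp

open Finset

theorem exists_cover {G : Type} [DecidableEq G] [Nonempty G] {t : ℕ} (Z : Finset G)
    (hZ : Z.card ≤ t) : ∃ z : Fin t → G, Z ⊆ univ.image z := by
  classical
  let e := Z.equivFin
  refine ⟨fun i => if h : (i : ℕ) < Z.card then (e.symm ⟨i, h⟩ : G) else Classical.arbitrary G, ?_⟩
  intro x hx
  rw [mem_image]
  have h1 : ((e ⟨x, hx⟩ : Fin Z.card) : ℕ) < Z.card := (e ⟨x, hx⟩).2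
  refine ⟨⟨(e ⟨x, hx⟩ : Fin Z.card), by omega⟩, mem_univ _, ?_⟩
  simp only [h1, dif_pos]
  have : (⟨((e ⟨x, hx⟩ : Fin Z.card) : ℕ), h1⟩ : Fin Z.card) = e ⟨x, hx⟩ := Fin.ext rfl
  rw [this, Equiv.symm_apply_apply]

theorem bad_card {G : Type} [Fintype G] [DecidableEq G] {t f : ℕ} (Z : Finset G)
    (hZ : Z.card ≤ t) :
    ((powersetCard f (univ : Finset G)).filter (fun s => ¬ Disjoint s Z)).card ≤
      (Fintype.card G).choose f - (Fintype.card G - t).choose f := by
  have h1 : ((powersetCard f (univ : Finset G)).filter (fun s => Disjoint s Z)).card +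
      ((powersetCard f (univ : Finset G)).filter (fun s => ¬ Disjoint s Z)).card =
      (Fintype.card G).choose f := by
    rw [Finset.card_filter_add_card_filter_not, card_powersetCard, card_univ]
  have h2 : (Fintype.card G - t).choose f ≤
      ((powersetCard f (univ : Finset G)).filter (fun s => Disjoint s Z)).card := by
    have h3 : powersetCard f (univ \ Z) ⊆
        (powersetCard f (univ : Finset G)).filter (fun s => Disjoint s Z) := by
      intro s hs
      rw [mem_powersetCard] at hs
      rw [mem_filter, mem_powersetCard]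
      exact ⟨⟨subset_univ _, hs.2⟩, disjoint_of_subset_left hs.1 sdiff_disjoint⟩
    refine le_trans ?_ (card_le_card h3)
    rw [card_powersetCard, card_sdiff_of_subset (subset_univ _), card_univ]
    exact Nat.choose_le_choose f (by omega)
  omega

theorem core {G : Type} [Fintype G] [DecidableEq G] [Nonempty G] (t f N : ℕ)
    (h : (Fintype.card G) ^ t *
      ((Fintype.card G).choose f - (Fintype.card G - t).choose f) ^ N <
      ((Fintype.card G).choose f) ^ N) :
    ∃ F : Fin N → Finset G, (∀ b, (F b).card = f) ∧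
      ∀ Z : Finset G, Z.card ≤ t → ∃ b, Disjoint (F b) Z := by
  classical
  let X : Finset (Fin N → Finset G) := Fintype.piFinset (fun _ => powersetCard f univ)
  let Bad : (Fin t → G) → Finset (Fin N → Finset G) := fun z =>
    Fintype.piFinset (fun _ => (powersetCard f univ).filter (fun s => ¬ Disjoint s (univ.image z)))
  have hX : X.card = ((Fintype.card G).choose f) ^ N := by
    simp [X, Fintype.card_piFinset, card_powersetCard, card_univ]
  have hBad : ∀ z, (Bad z).card ≤
      ((Fintype.card G).choose f - (Fintype.card G - t).choose f) ^ N := by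
    intro z
    have h1 : (Bad z).card = ((powersetCard f univ).filter
        (fun s => ¬ Disjoint s (univ.image z))).card ^ N := by
      simp [Bad, Fintype.card_piFinset]
    rw [h1]
    apply Nat.pow_le_pow_left
    apply bad_card
    exact card_image_le.trans (by simp)
  have hU : ((univ : Finset (Fin t → G)).biUnion Bad).card < X.card := by
    rw [hX]
    refine lt_of_le_of_lt (card_biUnion_le_card_mul _ _ _ (fun z _ => hBad z)) ?_
    refine lt_of_eq_of_lt ?_ h
    rw [card_univ, Fintype.card_fun, Fintype.card_fin]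
  obtain ⟨F, hF1, hF2⟩ : ∃ F ∈ X, F ∉ (univ : Finset (Fin t → G)).biUnion Bad := by
    by_contra hcon
    push Not at hcon
    exact absurd (card_le_card (fun F hF => hcon F hF)) (by omega)
  have hF3 : ∀ b, F b ∈ powersetCard f (univ : Finset G) := by
    intro b
    exact Fintype.mem_piFinset.1 hF1 b
  refine ⟨F, fun b => (mem_powersetCard.1 (hF3 b)).2, fun Z hZ => ?_⟩
  obtain ⟨z, hz⟩ := exists_cover Z hZ
  by_contra hcon
  push Not at hcon
  apply hF2
  rw [mem_biUnion]
  refine ⟨z, mem_univ _, Fintype.mem_piFinset.2 fun b => ?_⟩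
  rw [mem_filter]
  exact ⟨hF3 b, fun hd => hcon b (disjoint_of_subset_right hz hd)⟩

end Pool.Agent.R467.DR.UNIONp

namespace Pool.Agent.R467.DR

theorem union : UNION := by
  intro g f t N hg ht hgf h
  have hc : (ZMod g : Type) = ZMod g := rfl
  have hcard : Fintype.card (ZMod g) = g := ZMod.card g
  have hpos : 0 < g.choose f := Nat.choose_pos (by omega)
  have hle : (g - t).choose f ≤ g.choose f := Nat.choose_le_choose f (by omega)
  have hcR : (0 : ℝ) < (g.choose f : ℝ) := by exact_mod_cast hpos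
  have hleR : ((g - t).choose f : ℝ) ≤ (g.choose f : ℝ) := by exact_mod_cast hle
  have hq0 : (0 : ℝ) ≤ 1 - ((g - t).choose f : ℝ) / (g.choose f : ℝ) := by
    rw [sub_nonneg, div_le_one hcR]; exact hleR
  have h1 : (g : ℝ) ^ t * (1 - ((g - t).choose f : ℝ) / (g.choose f : ℝ)) ^ N < 1 := by
    refine lt_of_le_of_lt ?_ h
    have h2 : (1 : ℝ) ≤ 2 * t := by
      have : (1 : ℝ) ≤ t := by exact_mod_cast ht
      linarith
    have h3 : (0 : ℝ) ≤ (g : ℝ) ^ t * (1 - ((g - t).choose f : ℝ) / (g.choose f : ℝ)) ^ N := by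
      positivity
    calc (g : ℝ) ^ t * (1 - ((g - t).choose f : ℝ) / (g.choose f : ℝ)) ^ N
        = 1 * ((g : ℝ) ^ t * (1 - ((g - t).choose f : ℝ) / (g.choose f : ℝ)) ^ N) := by ring
      _ ≤ (2 * t) * ((g : ℝ) ^ t * (1 - ((g - t).choose f : ℝ) / (g.choose f : ℝ)) ^ N) := by
          exact mul_le_mul_of_nonneg_right h2 h3
      _ = _ := by ring
  have h4 : g ^ t * (g.choose f - (g - t).choose f) ^ N < (g.choose f) ^ N := by
    have h5 : ((g ^ t * (g.choose f - (g - t).choose f) ^ N : ℕ) : ℝ) <
        (((g.choose f) ^ N : ℕ) : ℝ) := by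
      rw [Nat.cast_mul, Nat.cast_pow, Nat.cast_pow, Nat.cast_pow, Nat.cast_sub hle]
      have h6 : ((g.choose f : ℝ) - ((g - t).choose f : ℝ)) =
          (1 - ((g - t).choose f : ℝ) / (g.choose f : ℝ)) * (g.choose f : ℝ) := by
        field_simp
      rw [h6, mul_pow, ← mul_assoc]
      have h7 : (0 : ℝ) < (g.choose f : ℝ) ^ N := pow_pos hcR N
      calc _ < 1 * (g.choose f : ℝ) ^ N := mul_lt_mul_of_pos_right h1 h7
        _ = _ := one_mul _
    exact_mod_cast h5
  obtain ⟨F, hF1, hF2⟩ := UNIONp.core (G := ZMod g) t f N (by rw [hcard]; exact h4)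
  exact ⟨fun _ b => F b, fun _ b => hF1 b, fun Z hZ _ => hF2 Z hZ.le⟩

end Pool.Agent.R467.DR
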